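import Mathlib
import Pool.Agent.Work.MP_66bd88_lc.WeakDiamond

/-!
# Weak diamond and uniformization on trees without stationary antichains
-/

open Cardinal Ordinal Set Order

universe u

set_option linter.unusedSectionVars false

namespace Pool.Agent.Results.MP_66bd88_lc.NoUniformization

/-- A tree: a partial order in which the set of predecessors of every node is well ordered. -/
class IsTree (T : Type u) [PartialOrder T] : Prop where
  isWellOrder_Iio : ∀ t : T, IsWellOrder (Iio t) (· < ·)

attribute [instance] IsTree.isWellOrder_Iio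

/-- The height of a node: the order type of its set of predecessors. -/
noncomputable def height {T : Type u} [PartialOrder T] [IsTree T] (t : T) : Ordinal.{u} :=
  Ordinal.type ((· < ·) : Iio t → Iio t → Prop)

/-- An `ℵ₁`-tree: it has height `ω₁` (every node has height below `ω₁` and every level below `ω₁` is
nonempty) and its levels are countable. -/
structure IsAlephOneTree (T : Type u) [PartialOrder T] [IsTree T] : Prop where
  height_lt : ∀ t : T, height t < ω₁
  level_nonempty : ∀ α < (ω₁ : Ordinal.{u}), ∃ t : T, height t = α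
  level_countable : ∀ α < (ω₁ : Ordinal.{u}), {t : T | height t = α}.Countable

/-- No antichain of `T` is stationary: the set of heights of an antichain is never a stationary
subset of `ω₁`. -/
def NoStationaryAntichain (T : Type u) [PartialOrder T] [IsTree T] : Prop :=
  ∀ A : Set T, IsAntichain (· ≤ ·) A →
    ¬ IsStationary {x : Iio (ω₁ : Ordinal.{u}) | ∃ a ∈ A, height a = (x : Ordinal.{u})}

/-- A subtree: nonempty, downward closed and pruned. -/
structure IsSubtree {T : Type u} [PartialOrder T] [IsTree T] (S : Set T) : Prop where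
  nonempty : S.Nonempty
  isLowerSet : IsLowerSet S
  pruned : ∀ s ∈ S, ∀ α < (ω₁ : Ordinal.{u}), ∃ t ∈ S, s ≤ t ∧ α ≤ height t

/-- A ladder system: for every countable limit ordinal `α`, a cofinal subset `C α ⊆ α` of order
type `ω`. -/
structure IsLadderSystem (C : Ordinal.{u} → Set Ordinal.{u}) : Prop where
  subset : ∀ α < (ω₁ : Ordinal.{u}), IsSuccLimit α → C α ⊆ Iio α
  cofinal : ∀ α < (ω₁ : Ordinal.{u}), IsSuccLimit α → ∀ β < α, ∃ γ ∈ C α, β ≤ γ
  type_eq : ∀ α < (ω₁ : Ordinal.{u}), IsSuccLimit α →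
    Ordinal.type ((· < ·) : C α → C α → Prop) = ω

/-- A 2-colouring `f` of `C` is monochromatic if every `f α` (`α` a countable limit) is constant. -/
def IsMonochromatic (C : Ordinal.{u} → Set Ordinal.{u}) (f : ∀ α : Ordinal.{u}, C α → Bool) :
    Prop :=
  ∀ α < (ω₁ : Ordinal.{u}), IsSuccLimit α → ∃ i : Bool, ∀ ξ : C α, f α ξ = i

/-- `φ : S → {0,1}` is a `T`-uniformization of `f`: for every `s ∈ S` of limit height `α`, for all but
finitely many `ξ ∈ C α`, the predecessor `r` of `s` of height `ξ` has `φ r = f α ξ`. -/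
def IsUniformization {T : Type u} [PartialOrder T] [IsTree T]
    (C : Ordinal.{u} → Set Ordinal.{u}) (f : ∀ α : Ordinal.{u}, C α → Bool)
    (S : Set T) (φ : S → Bool) : Prop :=
  ∀ s : S, IsSuccLimit (height (s : T)) →
    {ξ : C (height (s : T)) | ¬ ∃ r : S, (r : T) < s ∧ height (r : T) = (ξ : Ordinal.{u}) ∧
      φ r = f (height (s : T)) ξ}.Finite

/-- `unif₂ᶜ(T, C)`: every monochromatic 2-colouring of `C` has a `T`-uniformization. -/
def Unif (T : Type u) [PartialOrder T] [IsTree T] (C : Ordinal.{u} → Set Ordinal.{u}) : Prop :=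
  ∀ f : (∀ α : Ordinal.{u}, C α → Bool), IsMonochromatic C f →
    ∃ S : Set T, IsSubtree S ∧ ∃ φ : S → Bool, IsUniformization C f S φ

section heights

variable {T : Type u} [PartialOrder T] [IsTree T]

theorem typein_eq_height {t : T} (r : Iio t) :
    Ordinal.typein ((· < ·) : Iio t → Iio t → Prop) r = height (r : T) := by
  unfold height
  rw [← Ordinal.type_subrel]
  refine RelIso.ordinalType_congr ?_
  refine ⟨⟨fun q => ⟨q.1.1, q.2⟩, fun q => ⟨⟨q.1, lt_trans q.2 r.2⟩, q.2⟩, fun q => rfl,
    fun q => rfl⟩, ?_⟩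
  intro a b
  exact Iff.rfl

theorem height_lt_height {r t : T} (h : r < t) : height r < height t := by
  have h1 := Ordinal.typein_lt_type ((· < ·) : Iio t → Iio t → Prop) ⟨r, h⟩
  rwa [typein_eq_height] at h1

theorem exists_height_eq {t : T} {ξ : Ordinal.{u}} (h : ξ < height t) :
    ∃ r < t, height r = ξ := by
  obtain ⟨r, hr⟩ := Ordinal.typein_surj ((· < ·) : Iio t → Iio t → Prop) h
  refine ⟨r, r.2, ?_⟩
  rw [← typein_eq_height]
  exact hr

theorem eq_of_height_eq {t r r' : T} (h : r < t) (h' : r' < t) (hh : height r = height r') :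
    r = r' := by
  have h1 : Ordinal.typein ((· < ·) : Iio t → Iio t → Prop) ⟨r, h⟩ =
      Ordinal.typein ((· < ·) : Iio t → Iio t → Prop) ⟨r', h'⟩ := by
    rw [typein_eq_height, typein_eq_height]
    exact hh
  exact congrArg Subtype.val (Ordinal.typein_injective _ h1)

/-- Two elements with a common upper bound are comparable. -/
theorem le_or_lt_of_le {t r r' : T} (h : r ≤ t) (h' : r' ≤ t) : r ≤ r' ∨ r' < r := by
  rcases h.lt_or_eq with h | rfl
  · rcases h'.lt_or_eq with h' | rfl
    · rcases trichotomous_of ((· < ·) : Iio t → Iio t → Prop) ⟨r, h⟩ ⟨r', h'⟩ with h1 | h1 | h1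
      · exact Or.inl (le_of_lt h1)
      · exact Or.inl (congrArg Subtype.val h1).le
      · exact Or.inr h1
    · exact Or.inl h.le
  · rcases h'.lt_or_eq with h' | rfl
    · exact Or.inr h'
    · exact Or.inl le_rfl

/-- A subtree meets every level below `ω₁`. -/
theorem IsSubtree.exists_height {S : Set T} (hS : IsSubtree S) {α : Ordinal.{u}}
    (hα : α < (ω₁ : Ordinal.{u})) : ∃ s ∈ S, height s = α := by
  obtain ⟨s, hs⟩ := hS.nonempty
  obtain ⟨t, ht, -, hat⟩ := hS.pruned s hs α hα
  rcases hat.lt_or_eq with h | h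
  · obtain ⟨r, hr, hrh⟩ := exists_height_eq h
    exact ⟨r, hS.isLowerSet hr.le ht, hrh⟩
  · exact ⟨t, ht, h.symm⟩

/-- The minimal elements of the complement of `S`. -/
def minCompl (S : Set T) : Set T := {t | t ∉ S ∧ ∀ r < t, r ∈ S}

theorem isAntichain_minCompl (S : Set T) : IsAntichain (· ≤ ·) (minCompl S) := by
  intro a ha b hb hab hle
  have : a < b := lt_of_le_of_ne hle hab
  exact ha.1 (hb.2 a this)

end heights

section countableOrdinals

/-- The type of countable ordinals. -/
abbrev W : Type (u + 1) := Iio (ω₁ : Ordinal.{u})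

theorem isSuccLimit_omega_one : IsSuccLimit (ω₁ : Ordinal.{u}) := by
  rw [← Ordinal.one_lt_cof_iff, Cardinal.cof_omega_one]
  exact lt_of_lt_of_le Cardinal.one_lt_aleph0 (Cardinal.aleph0_le_aleph 1)

instance : NoMaxOrder W.{u} := by
  refine ⟨fun a => ?_⟩
  exact ⟨⟨succ a.1, isSuccLimit_omega_one.succ_lt a.2⟩, by
    show a.1 < succ a.1
    exact lt_succ _⟩

instance : Nonempty W.{u} := ⟨⟨0, Ordinal.omega_pos 1⟩⟩

theorem cof_W : Order.cof W.{u} = ℵ₁ := by
  rw [Ordinal.cof_Iio]
  simp

theorem mk_W : #W.{u} = ℵ₁ := by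
  rw [Cardinal.mk_Iio_ordinal]
  simp

theorem countable_Iio_W (a : W.{u}) : (Iio a).Countable := by
  have h1 : (Iio (a : Ordinal.{u})).Countable := by
    rw [← Cardinal.le_aleph0_iff_set_countable, Cardinal.mk_Iio_ordinal]
    have h2 : (a : Ordinal.{u}).card < ℵ₁ := by
      have h3 : (a : Ordinal.{u}) < ω₁ := a.2
      rw [← Cardinal.lt_ord]
      simpa using h3
    rw [← Cardinal.succ_aleph0, Order.lt_succ_iff] at h2
    simpa only [Cardinal.lift_le_aleph0] using h2
  exact h1.preimage Subtype.val_injective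

/-- Limit ordinals form a club. -/
theorem isClub_limit : IsClub {a : W.{u} | IsSuccLimit (a : Ordinal.{u})} := by
  constructor
  · intro d hd hne _ a ha
    by_cases had : a ∈ d
    · exact hd had
    · obtain ⟨x, hx⟩ := hne
      have hxa : x < a := lt_of_le_of_ne (ha.1 hx) (fun h => had (h ▸ hx))
      show IsSuccLimit (a : Ordinal.{u})
      rw [Ordinal.isSuccLimit_iff]
      refine ⟨(lt_of_le_of_lt zero_le (show (x : Ordinal.{u}) < a from hxa)).ne', ?_⟩
      refine isSuccPrelimit_of_succ_lt fun b hb => ?_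
      have hbW : b < (ω₁ : Ordinal.{u}) := lt_trans hb a.2
      obtain ⟨y, hy, hby⟩ := (lt_isLUB_iff ha).1 (show (⟨b, hbW⟩ : W) < a from hb)
      have hya : y < a := lt_of_le_of_ne (ha.1 hy) (fun h => had (h ▸ hy))
      exact lt_of_le_of_lt (Order.succ_le_of_lt (show b < (y : Ordinal.{u}) from hby))
        (show (y : Ordinal.{u}) < a from hya)
  · intro a
    have h : (a : Ordinal.{u}) + ω < ω₁ := by
      refine Ordinal.isPrincipal_add_omega 1 a.2 ?_
      rw [← Ordinal.omega_zero]
      exact Ordinal.omega_lt_omega.2 zero_lt_one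
    refine ⟨⟨a + ω, h⟩, ?_, ?_⟩
    · show IsSuccLimit ((a : Ordinal.{u}) + ω)
      exact Ordinal.isSuccLimit_add _ Ordinal.isSuccLimit_omega0
    · show (a : Ordinal.{u}) ≤ a + ω
      exact le_self_add

end countableOrdinals

theorem IsLadderSystem.infinite {C : Ordinal.{u} → Set Ordinal.{u}} (hC : IsLadderSystem C)
    {α : Ordinal.{u}} (h1 : α < (ω₁ : Ordinal.{u})) (h2 : IsSuccLimit α) : Infinite (C α) := by
  have h3 := congrArg Ordinal.card (hC.type_eq α h1 h2)
  rw [Ordinal.card_type, Ordinal.card_omega0] at h3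
  exact Cardinal.infinite_iff.2 h3.ge

section main

variable {T : Type u} [PartialOrder T] [IsTree T]

/-- Read off the value at `r` from the coded initial segment `Y`. -/
noncomputable def rd (hw : T → W.{u}) (idx : T → ℕ) {α : W.{u}}
    (Y : Iio α → ULift.{u + 1} (ℕ → Bool × Bool)) (r : T) : Bool × Bool :=
  open Classical in
  if h : hw r < α then (Y ⟨hw r, h⟩).down (idx r) else (false, false)

/-- The function to which the weak diamond is applied. -/
noncomputable def guess (C : Ordinal.{u} → Set Ordinal.{u}) (hw : T → W.{u}) (idx : T → ℕ)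
    (α : W.{u}) (Y : Iio α → ULift.{u + 1} (ℕ → Bool × Bool)) : Bool :=
  open Classical in
  decide (∃ s : T, height s = (α : Ordinal.{u}) ∧ (∀ r < s, (rd hw idx Y r).1 = true) ∧
    {ξ : C (α : Ordinal.{u}) | ¬ ∃ r < s, height r = (ξ : Ordinal.{u}) ∧
      (rd hw idx Y r).2 = true}.Finite)

end main

/-- **Theorem.** If `2 ^ ℵ₀ < 2 ^ ℵ₁`, then `¬ unif₂ᶜ(T, C)` for every `ℵ₁`-tree `T` with no stationary
antichain and every ladder system `C`. -/
theorem result (hwd : (2 : Cardinal.{u}) ^ ℵ₀ < 2 ^ ℵ₁)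
    (T : Type u) [PartialOrder T] [IsTree T] (hT : IsAlephOneTree T)
    (hA : NoStationaryAntichain T)
    (C : Ordinal.{u} → Set Ordinal.{u}) (hC : IsLadderSystem C) : ¬ Unif T C := by
  classical
  intro hunif
  -- lift the cardinal hypothesis
  have hwd' : (2 : Cardinal.{u + 1}) ^ ℵ₀ < 2 ^ ℵ₁ := by
    have h1 := Cardinal.lift_lt.{u, u + 1}.2 hwd
    simpa using h1
  -- enumerate the levels
  let hw : T → W.{u} := fun t => ⟨height t, hT.height_lt t⟩
  have he : ∀ γ : W.{u}, ∃ e : ℕ → T, {t : T | height t = (γ : Ordinal.{u})} = Set.range e :=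
    fun γ => (hT.level_countable γ γ.2).exists_eq_range (hT.level_nonempty γ γ.2)
  choose e he using he
  have hidx : ∀ t : T, ∃ n : ℕ, e (hw t) n = t := by
    intro t
    have h1 : t ∈ {t' : T | height t' = (hw t : Ordinal.{u})} := rfl
    rw [he] at h1
    exact h1
  choose idx hidx using hidx
  have hV : #(ULift.{u + 1} (ℕ → Bool × Bool)) ≤ 𝔠 := by
    rw [Cardinal.mk_uLift, Cardinal.lift_le_continuum]
    exact Pool.Agent.Work.MP_66bd88_lc.mk_nat_fun_le
      (Cardinal.mk_le_aleph0.trans Cardinal.aleph0_le_continuum)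
  obtain ⟨g, hg⟩ := Pool.Agent.Work.MP_66bd88_lc.weak_diamond (W := W.{u})
    (by rw [cof_W]; exact Cardinal.aleph0_lt_aleph_one) mk_W countable_Iio_W hV hwd'
    (guess C hw idx)
  -- the colouring
  let f : ∀ α : Ordinal.{u}, C α → Bool := fun α _ =>
    if h : α < (ω₁ : Ordinal.{u}) then !(g ⟨α, h⟩) else false
  have hf : IsMonochromatic C f := by
    intro α hα _
    exact ⟨!(g ⟨α, hα⟩), fun ξ => dif_pos hα⟩
  obtain ⟨S, hS, φ, hφ⟩ := hunif f hf
  -- code `(S, φ)`
  let X : W.{u} → ULift.{u + 1} (ℕ → Bool × Bool) := fun γ => ULift.up fun n =>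
    (decide (e γ n ∈ S), if h : e γ n ∈ S then φ ⟨e γ n, h⟩ else false)
  have hrd1 : ∀ (a : W.{u}) (r : T), hw r < a →
      ((rd hw idx (fun b : Iio a => X b) r).1 = true ↔ r ∈ S) := by
    intro a r hr
    unfold rd
    rw [dif_pos hr]
    simp only [X, hidx, decide_eq_true_eq]
  have hrd2 : ∀ (a : W.{u}) (r : S), hw r < a →
      ((rd hw idx (fun b : Iio a => X b) (r : T)).2 = φ r) := by
    intro a r hr
    unfold rd
    rw [dif_pos hr]
    simp only [X, hidx, Subtype.coe_prop, dif_pos, Subtype.coe_eta]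
  -- the clubs
  have hns := hA (minCompl S) (isAntichain_minCompl S)
  rw [not_isStationary_iff] at hns
  obtain ⟨D, hD, hdis⟩ := hns
  have hcofne : Order.cof W.{u} ≠ ℵ₀ := by
    rw [cof_W]
    exact Cardinal.aleph0_lt_aleph_one.ne'
  obtain ⟨a, ha1, ha2, ha3⟩ := hg X (IsClub.inter hcofne hD isClub_limit)
  have ha1' : guess C hw idx a (fun b : Iio a => X b) = g a := ha1
  have ha3' : IsSuccLimit (a : Ordinal.{u}) := ha3
  -- K1
  have K1 : ∀ s : T, height s = (a : Ordinal.{u}) → (∀ r < s, r ∈ S) → s ∈ S := by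
    intro s hs hr
    by_contra hsS
    have : a ∈ {x : Iio (ω₁ : Ordinal.{u}) | ∃ t ∈ minCompl S, height t = (x : Ordinal.{u})} :=
      ⟨s, ⟨hsS, hr⟩, hs⟩
    exact Set.disjoint_left.1 hdis this ha2
  have K3 : ∀ s : S, height (s : T) = (a : Ordinal.{u}) →
      {ξ : C (a : Ordinal.{u}) | ¬ ∃ r : S, (r : T) < s ∧ height (r : T) = (ξ : Ordinal.{u}) ∧
        φ r = !(g a)}.Finite := by
    intro s hs
    have h1 := hφ s (by rw [hs]; exact ha3')
    have h2 : ∀ (α : Ordinal.{u}) (hα : α = a),
        {ξ : C α | ¬ ∃ r : S, (r : T) < s ∧ height (r : T) = (ξ : Ordinal.{u}) ∧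
          φ r = f α ξ}.Finite →
        {ξ : C (a : Ordinal.{u}) | ¬ ∃ r : S, (r : T) < s ∧ height (r : T) = (ξ : Ordinal.{u}) ∧
        φ r = !(g a)}.Finite := by
      intro α hα h
      subst hα
      have h3 : ∀ ξ : C (a : Ordinal.{u}), f a ξ = !(g a) := fun ξ => dif_pos a.2
      simpa only [h3] using h
    exact h2 _ hs h1
  have hlt : ∀ (s r : T), height s = (a : Ordinal.{u}) → r < s → hw r < a := by
    intro s r hs hr
    show height r < (a : Ordinal.{u})
    rw [← hs]
    exact height_lt_height hr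
  cases hga : g a
  · -- guess must be true
    obtain ⟨s, hs, hsa⟩ := hS.exists_height a.2
    have hrS : ∀ r < s, r ∈ S := fun r hr => hS.isLowerSet hr.le hs
    have h1 : guess C hw idx a (fun b : Iio a => X b) = true := by
      unfold guess
      rw [decide_eq_true_eq]
      refine ⟨s, hsa, fun r hr => (hrd1 a r (hlt s r hsa hr)).2 (hrS r hr), ?_⟩
      refine (K3 ⟨s, hs⟩ hsa).subset ?_
      intro ξ hξ hcon
      apply hξ
      obtain ⟨r, hr, hrξ, hrφ⟩ := hcon
      refine ⟨r, hr, hrξ, ?_⟩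
      rw [hrd2 a r (hlt s r hsa hr), hrφ, hga]
      rfl
    rw [h1, hga] at ha1'
    exact Bool.noConfusion ha1'
  · have h1 : guess C hw idx a (fun b : Iio a => X b) = false := by
      unfold guess
      rw [decide_eq_false_iff_not]
      rintro ⟨s, hsa, hrs, hfin⟩
      have hrS : ∀ r < s, r ∈ S := fun r hr => (hrd1 a r (hlt s r hsa hr)).1 (hrs r hr)
      have hs := K1 s hsa hrS
      have hfin2 := K3 ⟨s, hs⟩ hsa
      have hinf : Infinite (C (a : Ordinal.{u})) := hC.infinite a.2 ha3'
      have hU := hfin.union hfin2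
      have huniv : (Set.univ : Set (C (a : Ordinal.{u}))).Finite := by
        refine hU.subset ?_
        intro ξ _
        by_contra hξ
        rw [Set.mem_union, not_or] at hξ
        obtain ⟨hξ1, hξ2⟩ := hξ
        have hξ1' := not_not.1 hξ1
        have hξ2' := not_not.1 hξ2
        obtain ⟨r, hr, hrξ, hr2⟩ := hξ1'
        obtain ⟨r', hr', hrξ', hr2'⟩ := hξ2'
        have hrr : r = (r' : T) := eq_of_height_eq hr hr' (hrξ.trans hrξ'.symm)
        subst hrr
        rw [hrd2 a r' (hlt s r' hsa hr), hr2', hga] at hr2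
        exact Bool.noConfusion hr2
      exact Set.infinite_univ huniv
    rw [h1, hga] at ha1'
    exact Bool.noConfusion ha1'

end Pool.Agent.Results.MP_66bd88_lc.NoUniformization
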